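import Mathlib

/-!
Algebras, closed oligomorphic algebras, linear identities, terminator terms (MP_7ddfd8_al).
-/

set_option autoImplicit false

namespace Pool.Agent.H24TT

variable {A ι : Type}

/-- The `n`-ary term operations of the algebra with universe `A` and basic operations `op i`, of
arity `ar i`. -/
inductive IsTermOp (ar : ι → ℕ) (op : ∀ i, (Fin (ar i) → A) → A) (n : ℕ) :
    ((Fin n → A) → A) → Prop
  | proj (j : Fin n) : IsTermOp ar op n (fun x => x j)
  | app (i : ι) (g : Fin (ar i) → (Fin n → A) → A) (hg : ∀ j, IsTermOp ar op n (g j)) :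
      IsTermOp ar op n (fun x => op i (fun j => g j x))

/-- The algebra is closed oligomorphic: its universe is countable, for every `n` the set of its
`n`-ary term operations is closed in the topology of pointwise convergence (`A` is discrete), and
the permutations of `A` which are unary term operations form a group with finitely many orbits on
`n`-tuples, for every `n`. -/
structure ClosedOligomorphic (ar : ι → ℕ) (op : ∀ i, (Fin (ar i) → A) → A) : Prop where
  countable : Countable A
  closed : ∀ n : ℕ, @IsClosed ((Fin n → A) → A)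
    (@Pi.topologicalSpace (Fin n → A) (fun _ => A) (fun _ => ⊥)) {f | IsTermOp ar op n f}
  oligomorphic : ∃ G : Subgroup (Equiv.Perm A),
    (∀ g : Equiv.Perm A, g ∈ G ↔ IsTermOp ar op 1 (fun x => g (x 0))) ∧
    ∀ n : ℕ, Finite (MulAction.orbitRel.Quotient G (Fin n → A))

/-- A linear term over operation symbols `f : F` of arity `arF f`: a variable `x_v`, or one symbol
applied to variables. -/
inductive LinTerm (F : Type) (arF : F → ℕ) : Type
  | var (v : ℕ) : LinTerm F arF
  | app (f : F) (v : Fin (arF f) → ℕ) : LinTerm F arF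

variable {F : Type} {arF : F → ℕ}

/-- The value of a linear term in `A`, if the symbol `f` is interpreted as the operation `I f` and
the variable `x_v` as `x v`. -/
def LinTerm.eval (I : ∀ f : F, (Fin (arF f) → A) → A) (x : ℕ → A) : LinTerm F arF → A
  | .var v => x v
  | .app f v => I f (fun j => x (v j))

/-- The variable to which a linear term evaluates, if the symbol `f` is interpreted as the
projection to the coordinate `p f`. -/
def LinTerm.projVar (p : ∀ f : F, Fin (arF f)) : LinTerm F arF → ℕ
  | .var v => v
  | .app f v => v (p f)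

/-- A set `E` of linear identities is nontrivial: no interpretation of the symbols as projections
satisfies it. -/
def NontrivialIdentities (E : Set (LinTerm F arF × LinTerm F arF)) : Prop :=
  ¬ ∃ p : ∀ f : F, Fin (arF f), ∀ e ∈ E, e.1.projVar p = e.2.projVar p

/-- The algebra satisfies the set `E` of linear identities: the symbols can be interpreted as term
operations such that every identity of `E` holds for all values of the variables. -/
def SatisfiesIdentities (ar : ι → ℕ) (op : ∀ i, (Fin (ar i) → A) → A)
    (E : Set (LinTerm F arF × LinTerm F arF)) : Prop :=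
  ∃ I : ∀ f : F, (Fin (arF f) → A) → A, (∀ f, IsTermOp ar op (arF f) (I f)) ∧
    ∀ e ∈ E, ∀ x : ℕ → A, e.1.eval I x = e.2.eval I x

/-- The algebra has terminator terms `c`, `c_1, c_2` and `c_11, c_12, c_21, c_22`. -/
def HasTerminatorTerms (ar : ι → ℕ) (op : ∀ i, (Fin (ar i) → A) → A) : Prop :=
  ∃ (c : (Fin 3 → A) → A) (c₁ : Fin 2 → (Fin 3 → A) → A) (c₂ : Fin 2 → Fin 2 → (Fin 3 → A) → A),
    IsTermOp ar op 3 c ∧ (∀ i, IsTermOp ar op 3 (c₁ i)) ∧ (∀ i j, IsTermOp ar op 3 (c₂ i j)) ∧
    ∀ x y : A,
      c ![x, y, x] = c₁ 0 ![x, x, y] ∧ c ![y, x, x] = c₁ 1 ![x, x, y] ∧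
      ∀ i : Fin 2,
        c₁ i ![x, y, x] = c₂ i 0 ![x, x, y] ∧ c₁ i ![y, x, x] = c₂ i 1 ![x, x, y] ∧
        c₂ i 0 ![x, y, x] = c₂ i 1 ![x, y, x] ∧ c₂ i 0 ![y, x, x] = c₂ i 1 ![y, x, x]

end Pool.Agent.H24TT
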