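import Pool.Agent.H24TT.Defs

/-!
A closed oligomorphic algebra which satisfies a nontrivial set of linear identities and has no
terminator terms.  The universe is the vector space `V = ℕ →₀ ZMod 3`; the operations are the
additive maps `f : V ^ n → V` whose kernel is `{x | ∀ i ∈ S, x i = 0}` for some nonempty `S`.
-/

set_option autoImplicit false

namespace Pool.Agent.H24TT

instance fact3 : Fact (Nat.Prime 3) := ⟨Nat.prime_three⟩

/-- the universe -/
abbrev V : Type := ℕ →₀ ZMod 3

/-- the operations of the algebra -/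
def Ok {n : ℕ} (f : (Fin n → V) → V) : Prop :=
  (∀ x y, f (x + y) = f x + f y) ∧ ∃ S : Set (Fin n), S.Nonempty ∧ ∀ x, f x = 0 ↔ ∀ i ∈ S, x i = 0

theorem ok_proj {n : ℕ} (j : Fin n) : Ok (fun x : Fin n → V => x j) := by
  refine ⟨fun x y => rfl, {j}, ⟨j, rfl⟩, fun x => ?_⟩
  constructor
  · intro h i hi
    rw [Set.mem_singleton_iff] at hi
    rw [hi]; exact h
  · intro h
    exact h j rfl

theorem ok_comp {n m : ℕ} {f : (Fin m → V) → V} (hf : Ok f) (g : Fin m → (Fin n → V) → V)
    (hg : ∀ j, Ok (g j)) : Ok (fun x => f (fun j => g j x)) := by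
  obtain ⟨hfa, S, hS, hf0⟩ := hf
  refine ⟨fun x y => ?_, ?_⟩
  · change f (fun j => g j (x + y)) = f (fun j => g j x) + f (fun j => g j y)
    rw [← hfa]
    congr 1
    funext j
    exact (hg j).1 x y
  · choose T hT hg0 using fun j => (hg j).2
    refine ⟨⋃ j ∈ S, T j, ?_, fun x => ?_⟩
    · obtain ⟨j, hj⟩ := hS
      obtain ⟨i, hi⟩ := hT j
      exact ⟨i, Set.mem_biUnion hj hi⟩
    · rw [hf0]
      constructor
      · intro h i hi
        rw [Set.mem_iUnion₂] at hi
        obtain ⟨j, hj, hij⟩ := hi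
        exact (hg0 j x).1 (h j hj) i hij
      · intro h j hj
        exact (hg0 j x).2 (fun i hi => h i (Set.mem_biUnion hj hi))

/-- the index type of the basic operations -/
abbrev Idx : Type := Σ n : ℕ, {f : (Fin n → V) → V // Ok f}

/-- arities -/
def arI (i : Idx) : ℕ := i.1

/-- the basic operations -/
def opI (i : Idx) : (Fin (arI i) → V) → V := i.2.1

theorem isTermOp_iff {n : ℕ} (f : (Fin n → V) → V) : IsTermOp arI opI n f ↔ Ok f := by
  constructor
  · intro h
    induction h with
    | proj j => exact ok_proj j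
    | app i g hg ih => exact ok_comp i.2.2 g ih
  · intro h
    exact IsTermOp.app (ar := arI) (op := opI) (n := n) ⟨n, f, h⟩ (fun j x => x j)
      (fun j => IsTermOp.proj j)

theorem closed_of_local {B C : Type} (P : Set (B → C))
    (h : ∀ f, (∀ T : Finset B, ∃ f' ∈ P, ∀ x ∈ T, f' x = f x) → f ∈ P) :
    @IsClosed (B → C) (@Pi.topologicalSpace B (fun _ => C) (fun _ => ⊥)) P := by
  let _ : TopologicalSpace C := ⊥
  have _ : DiscreteTopology C := ⟨rfl⟩
  apply isClosed_of_closure_subset
  intro f hf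
  apply h
  intro T
  rw [mem_closure_iff_nhds] at hf
  obtain ⟨f', hf'1, hf'2⟩ := hf (Set.pi (T : Set B) (fun x => {f x}))
    (set_pi_mem_nhds T.finite_toSet (fun x _ => by rw [nhds_discrete]; exact Set.mem_singleton _))
  exact ⟨f', hf'2, fun x hx => hf'1 x hx⟩

theorem closed_ok (n : ℕ) : @IsClosed ((Fin n → V) → V)
    (@Pi.topologicalSpace (Fin n → V) (fun _ => V) (fun _ => ⊥)) {f | IsTermOp arI opI n f} := by
  classical
  apply closed_of_local
  intro f hf
  change IsTermOp arI opI n f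
  rw [isTermOp_iff]
  have hf' : ∀ T : Finset (Fin n → V), ∃ f', Ok f' ∧ ∀ x ∈ T, f' x = f x := by
    intro T
    obtain ⟨f', h1, h2⟩ := hf T
    exact ⟨f', (isTermOp_iff f').1 h1, h2⟩
  refine ⟨fun x y => ?_, ?_⟩
  · obtain ⟨f', h1, h2⟩ := hf' {x, y, x + y}
    rw [← h2 x (by simp), ← h2 y (by simp), ← h2 (x + y) (by simp)]
    exact h1.1 x y
  · by_contra hcon
    push Not at hcon
    choose x hx using fun (S : Set (Fin n)) => hcon S
    have hx' : ∀ S : Set (Fin n), ∃ z : Fin n → V, S.Nonempty → ¬ (f z = 0 ↔ ∀ i ∈ S, z i = 0) := by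
      intro S
      by_cases hS : S.Nonempty
      · obtain ⟨z, hz⟩ := hcon S hS
        refine ⟨z, fun _ hiff => ?_⟩
        rcases hz with ⟨h1, i, h2, h3⟩ | ⟨h1, h2⟩
        · exact h3 (hiff.1 h1 i h2)
        · exact h1 (hiff.2 h2)
      · exact ⟨0, fun h => absurd h hS⟩
    choose z hz using hx'
    obtain ⟨f', h1, h2⟩ := hf' (Finset.univ.image z)
    obtain ⟨S, hS, h3⟩ := h1.2
    apply hz S hS
    rw [← h2 (z S) (Finset.mem_image_of_mem _ (Finset.mem_univ _))]
    exact h3 (z S)

/-! ### The group -/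

/-- the additive permutations -/
def GV : Subgroup (Equiv.Perm V) where
  carrier := {g | ∀ x y, g (x + y) = g x + g y}
  one_mem' := fun x y => rfl
  mul_mem' := by
    intro g h hg hh x y
    rw [Equiv.Perm.mul_apply, Equiv.Perm.mul_apply, Equiv.Perm.mul_apply, hh, hg]
  inv_mem' := by
    intro g hg x y
    apply g.injective
    change g (g.symm (x + y)) = g (g.symm x + g.symm y)
    rw [hg, Equiv.apply_symm_apply, Equiv.apply_symm_apply, Equiv.apply_symm_apply]

theorem mem_GV (g : Equiv.Perm V) : g ∈ GV ↔ IsTermOp arI opI 1 (fun x => g (x 0)) := by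
  rw [isTermOp_iff]
  constructor
  · intro hg
    have h0 : g 0 = 0 := by
      have := hg 0 0
      rw [add_zero] at this
      exact left_eq_add.1 this
    refine ⟨fun x y => hg _ _, Set.univ, ⟨0, trivial⟩, fun x => ?_⟩
    constructor
    · intro h i _
      rw [Subsingleton.elim i 0]
      apply g.injective
      rw [h0]; exact h
    · intro h
      change g (x 0) = 0
      rw [h 0 trivial, h0]
  · intro h x y
    exact h.1 (fun _ => x) (fun _ => y)

open Cardinal in
theorem rank_compl {U W : Submodule (ZMod 3) V} (h : IsCompl U W) [FiniteDimensional (ZMod 3) U] :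
    Module.rank (ZMod 3) W = ℵ₀ := by
  have h1 : Module.rank (ZMod 3) V = ℵ₀ := by
    rw [rank_finsupp_self']; exact Cardinal.mk_nat
  have h2 := LinearEquiv.rank_eq (Submodule.prodEquivOfIsCompl U W h)
  have f1 : Module.Free (ZMod 3) U := Module.Free.of_divisionRing (ZMod 3) U
  have f2 : Module.Free (ZMod 3) W := Module.Free.of_divisionRing (ZMod 3) W
  rw [rank_prod', h1] at h2
  have h3 : Module.rank (ZMod 3) U < ℵ₀ := Module.rank_lt_aleph0 _ _
  apply le_antisymm
  · rw [← h2]; exact le_add_self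
  · by_contra hcon
    push Not at hcon
    have := Cardinal.add_lt_aleph0 h3 hcon
    rw [h2] at this
    exact lt_irrefl _ this

theorem extend {n : ℕ} (x y : Fin n → V)
    (h : ∀ c : Fin n → ZMod 3, ∑ i, c i • x i = 0 ↔ ∑ i, c i • y i = 0) :
    ∃ g : V ≃ₗ[ZMod 3] V, ∀ i, g (x i) = y i := by
  set L := Fintype.linearCombination (ZMod 3) x with hL
  set M := Fintype.linearCombination (ZMod 3) y with hM
  have hker : LinearMap.ker L = LinearMap.ker M := by
    ext c
    rw [LinearMap.mem_ker, LinearMap.mem_ker, hL, hM, Fintype.linearCombination_apply,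
      Fintype.linearCombination_apply]
    exact h c
  let φ : LinearMap.range L ≃ₗ[ZMod 3] LinearMap.range M :=
    (L.quotKerEquivRange.symm.trans (Submodule.quotEquivOfEq _ _ hker)).trans M.quotKerEquivRange
  have hφ : ∀ c, φ ⟨L c, LinearMap.mem_range_self L c⟩ = ⟨M c, LinearMap.mem_range_self M c⟩ := by
    intro c
    have h1 : L.quotKerEquivRange.symm ⟨L c, LinearMap.mem_range_self L c⟩ =
        (LinearMap.ker L).mkQ c := by
      rw [LinearEquiv.symm_apply_eq]
      rfl
    change M.quotKerEquivRange (Submodule.quotEquivOfEq _ _ hker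
      (L.quotKerEquivRange.symm ⟨L c, LinearMap.mem_range_self L c⟩)) = _
    rw [h1]
    rfl
  obtain ⟨W, hW⟩ := Submodule.exists_isCompl (LinearMap.range L)
  obtain ⟨W', hW'⟩ := Submodule.exists_isCompl (LinearMap.range M)
  have hr : Module.rank (ZMod 3) W = Module.rank (ZMod 3) W' := by
    rw [rank_compl hW, rank_compl hW']
  obtain ⟨ψ⟩ := nonempty_linearEquiv_of_rank_eq hr
  refine ⟨((Submodule.prodEquivOfIsCompl _ _ hW).symm.trans (φ.prodCongr ψ)).trans
    (Submodule.prodEquivOfIsCompl _ _ hW'), fun i => ?_⟩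
  have hxi : x i = L (Pi.single i 1) := by
    rw [hL, Fintype.linearCombination_apply_single, one_smul]
  have hyi : y i = M (Pi.single i 1) := by
    rw [hM, Fintype.linearCombination_apply_single, one_smul]
  have h2 : (Submodule.prodEquivOfIsCompl _ _ hW).symm (x i) =
      (⟨L (Pi.single i 1), LinearMap.mem_range_self L _⟩, 0) := by
    rw [LinearEquiv.symm_apply_eq, hxi]
    simp [Submodule.coe_prodEquivOfIsCompl']
  rw [LinearEquiv.trans_apply, LinearEquiv.trans_apply, h2]
  have h3 : (φ.prodCongr ψ) (⟨L (Pi.single i 1), LinearMap.mem_range_self L _⟩, 0) =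
      (⟨M (Pi.single i 1), LinearMap.mem_range_self M _⟩, 0) := by
    rw [LinearEquiv.prodCongr_apply]
    simp only [hφ, map_zero]
  rw [h3, hyi]
  simp [Submodule.coe_prodEquivOfIsCompl']

theorem finite_orbits (n : ℕ) : Finite (MulAction.orbitRel.Quotient GV (Fin n → V)) := by
  let κ : (Fin n → V) → Set (Fin n → ZMod 3) := fun x => {c | ∑ i, c i • x i = 0}
  apply Finite.of_injective (fun q : MulAction.orbitRel.Quotient GV (Fin n → V) =>
    κ (Quotient.out q))
  intro q q' hqq
  have h1 : ∀ c : Fin n → ZMod 3, ∑ i, c i • (Quotient.out q') i = 0 ↔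
      ∑ i, c i • (Quotient.out q) i = 0 := fun c => (Set.ext_iff.1 hqq c).symm
  obtain ⟨g, hg⟩ := extend _ _ h1
  rw [← Quotient.out_eq q, ← Quotient.out_eq q']
  apply Quotient.sound
  refine ⟨⟨g.toEquiv, fun x y => map_add g x y⟩, ?_⟩
  funext i
  exact hg i

theorem closedOligomorphic : ClosedOligomorphic arI opI where
  countable := inferInstance
  closed := closed_ok
  oligomorphic := ⟨GV, mem_GV, finite_orbits⟩

/-! ### No terminator terms -/

theorem add3 (x y z : V) : (![x, y, z] : Fin 3 → V) = ![x, 0, 0] + ![0, y, 0] + ![0, 0, z] := by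
  funext i
  fin_cases i <;> simp

theorem Ok.zero {n : ℕ} {f : (Fin n → V) → V} (hf : Ok f) : f 0 = 0 := by
  obtain ⟨_, S, _, h⟩ := hf
  exact (h 0).2 (fun _ _ => rfl)

theorem vec0 : (![0, 0, 0] : Fin 3 → V) = 0 := by
  funext i
  fin_cases i <;> rfl

theorem not_terminator : ¬ HasTerminatorTerms arI opI := by
  rintro ⟨c, c₁, c₂, hc, hc₁, hc₂, h⟩
  rw [isTermOp_iff] at hc
  have hc₁' : ∀ i, Ok (c₁ i) := fun i => (isTermOp_iff _).1 (hc₁ i)
  have hc₂' : ∀ i j, Ok (c₂ i j) := fun i j => (isTermOp_iff _).1 (hc₂ i j)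
  have spl : ∀ (f : (Fin 3 → V) → V), Ok f → ∀ x y z : V,
      f ![x, y, z] = f ![x, 0, 0] + f ![0, y, 0] + f ![0, 0, z] := by
    intro f hf x y z
    rw [add3 x y z, hf.1, hf.1]
  obtain ⟨v, hv⟩ : ∃ v : V, v ≠ 0 := exists_ne 0
  -- the operations `c₁ i` vanish at `(x, x, 0)`
  have key : ∀ i x, c₁ i ![x, x, 0] = 0 := by
    intro i
    have e0 : ∀ y, c₂ i 0 ![y, 0, 0] = c₂ i 1 ![y, 0, 0] := fun y => ((h 0 y).2.2 i).2.2.2
    have e1 : ∀ y, c₂ i 0 ![0, y, 0] = c₂ i 1 ![0, y, 0] := fun y => ((h 0 y).2.2 i).2.2.1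
    have e2 : ∀ y, c₂ i 0 ![0, 0, y] = c₂ i 1 ![0, 0, y] := by
      intro y
      have e3 := ((h y 0).2.2 i).2.2.1
      rw [spl _ (hc₂' i 0) y 0 y, spl _ (hc₂' i 1) y 0 y, e0, e1] at e3
      exact add_left_cancel e3
    have e4 : ∀ x y, c₁ i ![x, y, x] = c₁ i ![y, x, x] := by
      intro x y
      rw [((h x y).2.2 i).1, ((h x y).2.2 i).2.1, spl _ (hc₂' i 0), spl _ (hc₂' i 1), e0, e1, e2]
    have e5 : ∀ y, c₁ i ![0, y, 0] = c₁ i ![y, 0, 0] := fun y => e4 0 y
    obtain ⟨ha, S, hS, hS0⟩ := hc₁' i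
    have e6 : c₁ i ![v, -v, 0] = 0 := by
      rw [spl _ (hc₁' i), vec0, (hc₁' i).zero, add_zero, e5, ← ha]
      have : (![v, 0, 0] : Fin 3 → V) + ![-v, 0, 0] = 0 := by
        funext j
        fin_cases j <;> simp
      rw [this, (hc₁' i).zero]
    have e7 := (hS0 _).1 e6
    have s0 : (0 : Fin 3) ∉ S := fun hm => hv (e7 0 hm)
    have s1 : (1 : Fin 3) ∉ S := fun hm => hv (neg_eq_zero.1 (e7 1 hm))
    intro x
    apply (hS0 _).2
    intro j hj
    fin_cases j
    · exact absurd hj s0
    · exact absurd hj s1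
    · rfl
  obtain ⟨_, S, ⟨j, hj⟩, hS0⟩ := hc
  have f0 : c ![v, 0, v] = 0 := by rw [(h v 0).1, key]
  have f1 : c ![0, v, v] = 0 := by rw [(h v 0).2.1, key]
  have g0 := (hS0 _).1 f0
  have g1 := (hS0 _).1 f1
  fin_cases j
  · exact hv (g0 0 hj)
  · exact hv (g1 1 hj)
  · exact hv (g0 2 hj)

/-! ### The linear identities -/

/-- the arities of the five symbols -/
abbrev ar5 (_ : Fin 5) : ℕ := 5

/-- the variable `x_1` at the place `j` and `x_0` elsewhere -/
def ev (j : Fin 5) : Fin 5 → ℕ := fun k => if k = j then 1 else 0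

/-- the identities `f_i (x, …, y, …, x) = f_i (x, …, x)` (`y` at the place `i`), and
`f_i (x, …, y, …, x) = f_j (x, …, y, …, x)` (`y` at the place `j` on the left-hand side and at the
place `i` on the right-hand side) -/
def ids : Set (LinTerm (Fin 5) ar5 × LinTerm (Fin 5) ar5) :=
  Set.range (fun i : Fin 5 => (LinTerm.app i (ev i), LinTerm.app i (fun _ => 0))) ∪
    Set.range (fun q : Fin 5 × Fin 5 => (LinTerm.app q.1 (ev q.2), LinTerm.app q.2 (ev q.1)))

theorem ids_finite : ids.Finite := (Set.finite_range _).union (Set.finite_range _)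

theorem no_involution (p : Fin 5 → Fin 5) (h1 : ∀ i, p i ≠ i) (h2 : ∀ i, p (p i) = i) : False := by
  have h : ∑ _i : Fin 5, (1 : ZMod 2) = 0 :=
    Finset.sum_involution (fun i _ => p i) (fun _ _ => by decide) (fun i _ _ => h1 i)
      (fun _ _ => Finset.mem_univ _) (fun i _ => h2 i)
  exact absurd h (by decide)

theorem ids_nontrivial : NontrivialIdentities ids := by
  rintro ⟨p, hp⟩
  have h1 : ∀ i : Fin 5, p i ≠ i := by
    intro i hi
    have h := hp _ (Or.inl ⟨i, rfl⟩)
    change (if p i = i then 1 else 0) = 0 at h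
    rw [if_pos hi] at h
    exact one_ne_zero h
  apply no_involution p h1
  intro i
  have h := hp _ (Or.inr ⟨(i, p i), rfl⟩)
  change (if p i = p i then 1 else 0) = (if p (p i) = i then 1 else 0) at h
  rw [if_pos rfl] at h
  by_contra hne
  rw [if_neg hne] at h
  exact one_ne_zero h

/-- the coefficients of the operations: `a i j` is a vector in `F_3^4`; the row sums are equal to
`(1, 1, 1, 1)`, and the four vectors `a i j`, `j ≠ i`, are linearly independent -/
def a (i j : Fin 5) (k : Fin 4) : ZMod 3 :=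
  if i = j then 0 else if i = 0 then (if j = k.succ then 1 else 0) else
    if j = 0 then (if i = k.succ then 1 else 0) else
      if i = k.succ ∨ j = k.succ then 0 else -1

/-- the inverse matrices -/
def b (i j : Fin 5) (k : Fin 4) : ZMod 3 :=
  if i = 0 then (if j = k.succ then 1 else 0) else
    if j = 0 then (if i = k.succ then 1 else 0) else
      if i = k.succ then 0 else if j = k.succ then 2 else 1

theorem a_symm : ∀ i j k, a i j k = a j i k := by decide

theorem a_diag : ∀ i k, a i i k = 0 := by decide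

theorem a_sum : ∀ i k, ∑ j, a i j k = 1 := by decide

theorem b_inv : ∀ i j j', j ≠ i → ∑ k, b i j k * a i j' k = if j = j' then 1 else 0 := by decide

theorem exists_E : ∃ E : (Fin 4 → V) → V, (∀ x y, E (x + y) = E x + E y) ∧ ∀ x, E x = 0 ↔ x = 0 := by
  obtain ⟨e0⟩ : Nonempty (ℕ ≃ Fin 4 × ℕ) := nonempty_equiv_of_countable
  let e1 : V ≃ₗ[ZMod 3] ((Fin 4 × ℕ) →₀ ZMod 3) := Finsupp.domLCongr e0
  let e2 : ((Fin 4 × ℕ) →₀ ZMod 3) ≃ₗ[ZMod 3] (Fin 4 →₀ V) := Finsupp.curryLinearEquiv (ZMod 3)
  let e3 : (Fin 4 →₀ V) ≃ₗ[ZMod 3] (Fin 4 → V) := Finsupp.linearEquivFunOnFinite (ZMod 3) V (Fin 4)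
  let e := ((e1.trans e2).trans e3).symm
  exact ⟨e, fun x y => map_add e x y, fun x => by
    rw [LinearEquiv.map_eq_zero_iff]⟩

theorem ids_satisfied : SatisfiesIdentities arI opI ids := by
  obtain ⟨E, hE, hE0⟩ := exists_E
  let I : Fin 5 → (Fin 5 → V) → V := fun i x => E (fun k => ∑ j, a i j k • x j)
  have hI : ∀ i, Ok (I i) := by
    intro i
    refine ⟨fun x y => ?_, {j | j ≠ i}, ?_, fun x => ?_⟩
    · change E _ = E _ + E _
      rw [← hE]
      congr 1
      funext k
      rw [Pi.add_apply, ← Finset.sum_add_distrib]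
      apply Finset.sum_congr rfl
      intro j _
      rw [Pi.add_apply, smul_add]
    · exact exists_ne i
    · change E _ = 0 ↔ _
      rw [hE0]
      constructor
      · intro h j hj
        have h1 : ∀ k, ∑ j', a i j' k • x j' = 0 := fun k => congrFun h k
        have h2 : ∑ k, b i j k • ∑ j', a i j' k • x j' = 0 :=
          Finset.sum_eq_zero (fun k _ => by rw [h1, smul_zero])
        simp only [Finset.smul_sum, smul_smul] at h2
        rw [Finset.sum_comm] at h2
        simp only [← Finset.sum_smul] at h2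
        simp only [b_inv i j _ hj, ite_smul, one_smul, zero_smul] at h2
        rwa [Finset.sum_ite_eq, if_pos (Finset.mem_univ _)] at h2
      · intro h
        funext k
        apply Finset.sum_eq_zero
        intro j _
        by_cases hj : j = i
        · rw [hj, a_diag, zero_smul]
        · rw [h j hj, smul_zero]
  have hev : ∀ (i j : Fin 5) (x : ℕ → V), I i (fun k => x (ev j k)) =
      E (fun k => a i j k • (x 1 - x 0) + x 0) := by
    intro i j x
    change E _ = E _
    congr 1
    funext k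
    have h1 : ∀ l, a i l k • x (ev j l) = (if l = j then a i l k • (x 1 - x 0) else 0) +
        a i l k • x 0 := by
      intro l
      unfold ev
      split_ifs
      · rw [← smul_add, sub_add_cancel]
      · rw [zero_add]
    rw [Finset.sum_congr rfl (fun l _ => h1 l), Finset.sum_add_distrib, ← Finset.sum_smul, a_sum,
      one_smul, Finset.sum_ite_eq', if_pos (Finset.mem_univ _)]
  refine ⟨I, fun f => (isTermOp_iff _).2 (hI f), ?_⟩
  rintro e (⟨i, rfl⟩ | ⟨⟨i, j⟩, rfl⟩) x
  · change I i (fun k => x (ev i k)) = E (fun k => ∑ j, a i j k • x 0)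
    rw [hev]
    congr 1
    funext k
    rw [← Finset.sum_smul, a_sum, a_diag, zero_smul, zero_add, one_smul]
  · change I i (fun k => x (ev j k)) = I j (fun k => x (ev i k))
    rw [hev, hev]
    congr 1
    funext k
    rw [a_symm]

end Pool.Agent.H24TT
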